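import Mathlib

set_option autoImplicit false

namespace Pool.Agent.Lib.MP_2a7493_nt

open Complex

/-- a root of the cubic of conductor 13 -/
theorem exists_root : ∃ u : ℝ, 0 < u ∧ u < 1 ∧ u ^ 3 + u ^ 2 - 4 * u + 1 = 0 := by
  have hc : ContinuousOn (fun u : ℝ => u ^ 3 + u ^ 2 - 4 * u + 1) (Set.Icc 0 1) := by
    fun_prop
  have h := intermediate_value_Icc' (zero_le_one : (0 : ℝ) ≤ 1) hc
  have h0 : (0 : ℝ) ∈ Set.Icc ((fun u : ℝ => u ^ 3 + u ^ 2 - 4 * u + 1) 1)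
      ((fun u : ℝ => u ^ 3 + u ^ 2 - 4 * u + 1) 0) := by
    constructor <;> norm_num
  obtain ⟨u, ⟨hu0, hu1⟩, hu⟩ := h h0
  simp only at hu
  refine ⟨u, lt_of_le_of_ne hu0 ?_, lt_of_le_of_ne hu1 ?_, hu⟩
  · rintro rfl; norm_num at hu
  · rintro rfl; norm_num at hu

/-- values of the counterexample, as a function of the residue -/
def G (y z : ℂ) : ℕ → ℂ
  | 0 => 0
  | 1 => 1
  | 2 => -(I * y)
  | 3 => y
  | 4 => -z
  | 5 => -I
  | 6 => -(I * z)
  | 7 => I * z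
  | 8 => I
  | 9 => z
  | 10 => -y
  | 11 => I * y
  | 12 => -1
  | _ => 0

theorem exists_fun : ∃ f : ZMod 13 → ℂ, f 0 = 0 ∧ f 1 = 1 ∧
    (∀ a : ZMod 13, a ≠ 0 → ‖f a‖ = 1) ∧
    (∀ h : ZMod 13, h ≠ 0 →
      ∑ a ∈ Finset.range 13, f (a : ZMod 13) * starRingEnd ℂ (f ((a : ZMod 13) + h)) = -1) ∧
    (∑ a ∈ Finset.range 13, f (a : ZMod 13) * starRingEnd ℂ (f (a : ZMod 13)) =
      ((13 : ℕ) : ℂ) - 1) ∧ f 2 * f 2 ≠ f (2 * 2) := by
  obtain ⟨u, hu0, hu1, hu⟩ := exists_root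
  obtain ⟨p, hp⟩ : ∃ p : ℝ, p = (5 - 2 * u - 2 * u ^ 2) / 5 := ⟨_, rfl⟩
  obtain ⟨q, hq⟩ : ∃ q : ℝ, q = 2 * (u + 1) / 5 := ⟨_, rfl⟩
  obtain ⟨r, hr⟩ : ∃ r : ℝ, r = -(1 + 2 * u) / 5 := ⟨_, rfl⟩
  obtain ⟨s, hs⟩ : ∃ s : ℝ, s = -2 * (3 - 2 * u - u ^ 2) / 5 := ⟨_, rfl⟩
  have h1 : p ^ 2 + q ^ 2 = 1 := by
    rw [hp, hq]; linear_combination (4 * (u + 1) / 25) * hu
  have h2 : r ^ 2 + s ^ 2 = 1 := by
    rw [hr, hs]; linear_combination (4 * (u + 3) / 25) * hu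
  have h3 : p * r + q * s = q + r + s := by
    rw [hp, hq, hr, hs]; linear_combination (8 / 25) * hu
  have h4 : q * r - p * s = p - q - r := by
    rw [hp, hq, hr, hs]; linear_combination (4 * (u + 2) / 25) * hu
  have h5 : 0 < p := by rw [hp]; nlinarith
  have h6 : 0 < q := by rw [hq]; positivity
  have h7 : s < 0 := by rw [hs]; nlinarith
  obtain ⟨y, hy⟩ : ∃ y : ℂ, y = ⟨p, q⟩ := ⟨_, rfl⟩
  obtain ⟨z, hz⟩ : ∃ z : ℂ, z = ⟨r, s⟩ := ⟨_, rfl⟩
  have hny : ‖y‖ = 1 := by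
    rw [← sq_eq_sq₀ (norm_nonneg _) zero_le_one, Complex.sq_norm, Complex.normSq_apply, hy]
    simp only
    nlinarith
  have hnz : ‖z‖ = 1 := by
    rw [← sq_eq_sq₀ (norm_nonneg _) zero_le_one, Complex.sq_norm, Complex.normSq_apply, hz]
    simp only
    nlinarith
  have hfG : ∀ n : ℕ, G y z ((n : ZMod 13).val) = G y z (n % 13) := by
    intro n
    rw [ZMod.val_natCast]
  refine ⟨fun a => G y z a.val, ?_, ?_, ?_, ?_, ?_, ?_⟩
  · rfl
  · rfl
  · intro a ha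
    have hlt : a.val < 13 := ZMod.val_lt a
    have hne : a.val ≠ 0 := (ZMod.val_ne_zero a).mpr ha
    simp only
    generalize a.val = n at hlt hne
    interval_cases n <;> simp_all [G]
  · intro h hh
    have hlt : h.val < 13 := ZMod.val_lt h
    have hne : h.val ≠ 0 := (ZMod.val_ne_zero h).mpr hh
    have hval : ((h.val : ℕ) : ZMod 13) = h := ZMod.natCast_zmod_val h
    rw [← hval]
    generalize h.val = n at hlt hne
    have hpos : 0 < n := Nat.pos_of_ne_zero hne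
    clear hne hh hval
    have e1 : ∀ a : ℕ, (a : ZMod 13) + (n : ZMod 13) = ((a + n : ℕ) : ZMod 13) := by
      intro a; push_cast; rfl
    simp only [e1, hfG]
    interval_cases n
    all_goals
      simp only [Finset.sum_range_succ, Finset.sum_range_zero, Nat.reduceMod, Nat.reduceAdd, G]
      apply Complex.ext
      · simp [hy, hz]
        linarith [h1, h2, h3, h4]
      · simp [hy, hz]
        linarith [h1, h2, h3, h4]
  · simp only [hfG]
    simp only [Finset.sum_range_succ, Finset.sum_range_zero, Nat.reduceMod, G]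
    apply Complex.ext
    · simp [hy, hz]
      linarith [h1, h2]
    · simp [hy, hz]
      try ring
  · show G y z 2 * G y z 2 ≠ G y z 4
    intro h
    have := congrArg Complex.im h
    simp [G, hy, hz] at this
    nlinarith [mul_pos h5 h6]

end Pool.Agent.Lib.MP_2a7493_nt
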